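import Pool.Agent.H31.SX.TargetsD
import Pool.Agent.H51.DW.SG

/-!
# (SG) the local component of a Hecke character at the primes dividing `k`
-/

set_option autoImplicit false

open NumberField NumberField.InfinitePlace NumberField.Units
  NumberField.Units.dirichletUnitTheorem MeasureTheory Set Filter Complex
open scoped nonZeroDivisors ENNReal

namespace Pool.Agent.H27.SX

open Pool.Agent.H28.RC (Rep ft idl T_ID)
open Pool.Agent.H25.HK Pool.Agent.H23.LB Pool.Agent.H23.LC Pool.Agent.H29.DW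
open Pool.Agent.H29.TC (Gn MC LC cq)
open Pool.Agent.H26.THC (isUnit_of_sup sup_of_isUnit ph_mul0 norm_ph0 ph_conj0 gn_mono gn_unique
  cq_eq)
open Pool.Agent.H51.DW (E0 E1 E1_eq E1_zero ag_conj E0_mul E0_princ E1_mul E1_one E1_of_not
  E1_norm_le E1_congr)
open Pool.Agent.H31.SX (X_SG LK)

theorem pf_SG (hAG : U_AG) : X_SG := by
  have hCG : U_CG := Pool.Agent.H60.GLB.pf_CG hAG
  have hID : T_ID := Pool.Agent.H92.RC.pf_ID
  intro K _ _ l k hG χ hP
  have hf1 : k ≠ ⊥ := hG.k_ne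
  have hf : l * k ≠ ⊥ := mul_ne_zero hG.l_ne hf1
  have hff1 : l * k ≤ k := Ideal.mul_le_right
  have hfl : l * k ≤ l := Ideal.mul_le_left
  by_cases hf1t : k = ⊤
  · -- the trivial case
    have hqs : Subsingleton (𝓞 K ⧸ k) := by
      rw [hf1t]
      exact Ideal.Quotient.subsingleton_iff.mpr rfl
    refine ⟨fun _ => 1, ⟨⟨rfl, fun _ _ => by rw [mul_one], fun _ _ => norm_one, ?_⟩, ?_⟩, ?_⟩
    · intro x hx
      exact absurd (isUnit_of_subsingleton x) hx
    · intro w hw
      exact absurd (Subsingleton.elim w 0) hw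
    · intro M x₀ hM hGn
      obtain ⟨-, hc2, -, hc5, -, -, -, -⟩ := hCG K (l * k) χ M hf hM
      refine ⟨cg χ M, hc2, ?_, ?_⟩
      · intro x hx t ht
        refine hc5 x hx t ?_
        rw [hf1t, Ideal.mul_top]
        exact ht
      · intro x hx
        have h1 : cq k (fun _ => (1 : ℂ)) M x₀ x = 1 := by
          obtain ⟨a, -, ha⟩ := hGn.gen x hx
          have h1M : (((l * k : Ideal (𝓞 K)) : FI K) * M ≤ ((k : Ideal (𝓞 K)) : FI K) * M) :=
            mul_le_mul_left ((FractionalIdeal.coeIdeal_le_coeIdeal K).mpr hff1) M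
          rw [cq_eq k (fun _ => (1 : ℂ)) (gn_mono hGn hff1) a x (h1M ha)]
        rw [h1, mul_one]
  have hft : l * k ≠ ⊤ := fun h => hf1t (top_le_iff.mp (h ▸ hff1))
  have hcop := hG.cop
  have h1 : (1 : 𝓞 K) ∈ l ⊔ k := by rw [hcop]; trivial
  obtain ⟨u, hu, v, hv, huv⟩ := Submodule.mem_sup.mp h1
  have hu1 : ∀ w ∈ k, u * w ∈ l * k := fun w hw => Ideal.mul_mem_mul hu hw
  have hv1 : ∀ w ∈ l, v * w ∈ l * k := fun w hw => by
    rw [mul_comm v w]
    exact Ideal.mul_mem_mul hw hv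
  let η : 𝓞 K ⧸ (k) → ℂ := fun q => E1 χ (v + u * q.out)
  have hη : ∀ a : 𝓞 K, η (Ideal.Quotient.mk (k) a) = E1 χ (v + u * a) := by
    intro a
    refine E1_congr hAG χ hft ?_
    have h2 : (Ideal.Quotient.mk (k) a).out - a ∈ k := by
      rw [← Ideal.Quotient.eq]
      exact Quotient.out_eq _
    have h3 : v + u * (Ideal.Quotient.mk (k) a).out - (v + u * a) =
      u * ((Ideal.Quotient.mk (k) a).out - a) := by ring
    rw [h3]
    exact hu1 _ h2
  have hsup : ∀ a : 𝓞 K, Ideal.span {a} ⊔ l * k = ⊤ → Ideal.span {a} ⊔ k = ⊤ :=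
    fun a ha => top_le_iff.mp (ha ▸ sup_le_sup_left hff1 _)
  have hvu : v = 1 - u := by rw [← huv]; ring
  have hmul : ∀ x y, η (x * y) = η x * η y := by
    intro x y
    obtain ⟨a, rfl⟩ := Ideal.Quotient.mk_surjective x
    obtain ⟨b, rfl⟩ := Ideal.Quotient.mk_surjective y
    rw [← map_mul, hη, hη, hη, ← E1_mul hAG]
    refine E1_congr hAG χ hft ?_
    have h3 : v + u * (a * b) - (v + u * a) * (v + u * b) =
      u * (v * (1 + a * b - a - b)) := by
      rw [hvu]; ring
    rw [h3]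
    exact hu1 _ (Ideal.mul_mem_right _ _ hv)
  have hone : η 1 = 1 := by
    rw [← map_one (Ideal.Quotient.mk (k)), hη, mul_one, add_comm, huv, E1_one hAG]
  refine ⟨η, ⟨⟨hone, hmul, ?_, ?_⟩, ?_⟩, ?_⟩
  · -- units
    intro x hx
    obtain ⟨y, hy⟩ := hx.exists_left_inv
    have h3 : η y * η x = 1 := by rw [← hmul, hy, hone]
    have h4 : ‖η y‖ ≤ 1 := E1_norm_le hAG χ _
    have h5 : ‖η x‖ ≤ 1 := E1_norm_le hAG χ _
    have h6 : ‖η y‖ * ‖η x‖ = 1 := by rw [← norm_mul, h3, norm_one]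
    have h7 := norm_nonneg (η x)
    refine le_antisymm h5 ?_
    rw [← h6]
    exact mul_le_of_le_one_left h7 h4
  · -- non units
    intro x hx
    obtain ⟨a, rfl⟩ := Ideal.Quotient.mk_surjective x
    rw [hη]
    refine E1_of_not χ fun h => hx ?_
    have h3 := isUnit_of_sup (k) _ (hsup _ h)
    have h4 : Ideal.Quotient.mk (k) (v + u * a) = Ideal.Quotient.mk (k) a := by
      rw [Ideal.Quotient.eq]
      have h5 : v + u * a - a = v * (1 - a) := by rw [hvu]; ring
      rw [h5]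
      exact Ideal.mul_mem_right _ _ hv
    rw [h4] at h3
    exact h3
  · -- primitive
    intro w hw
    obtain ⟨w0, rfl⟩ := Ideal.Quotient.mk_surjective w
    have hw0 : w0 ∉ k := fun h => hw (Ideal.Quotient.eq_zero_iff_mem.mpr h)
    obtain ⟨J, hJ⟩ := Ideal.dvd_iff_le.mpr (le_sup_right : k ≤
      Ideal.span {w0} ⊔ k)
    have hJt : J ≠ ⊤ := by
      rintro rfl
      rw [Ideal.mul_top] at hJ
      apply hw0
      rw [hJ]
      exact (le_sup_left : Ideal.span {w0} ≤ _) (Ideal.mem_span_singleton_self w0)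
    obtain ⟨P, hPm, hJP⟩ := Ideal.exists_le_maximal J hJt
    have hPp := hPm.isPrime
    have hf1P : k ≤ P := by
      rw [hJ]
      exact Ideal.mul_le_right.trans hJP
    have hkP : k ≤ P := hf1P
    have hP0 : P ≠ ⊥ := fun h => hf1 (le_bot_iff.mp (h ▸ hf1P))
    obtain ⟨J', hJ'⟩ := Ideal.dvd_iff_le.mpr hJP
    obtain ⟨a, ha0, ha1, ha2, ha3⟩ := hP P hPp hkP
    have h3 : Ideal.span {a - 1} * P ≤ k := by
      rw [Ideal.mul_le]
      intro r hr s hs
      obtain ⟨c, rfl⟩ := Ideal.mem_span_singleton'.mp hr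
      rw [mul_assoc]
      exact Ideal.mul_mem_left _ _ (hff1 (ha2 s hs))
    have h4 : Ideal.span {a - 1} ≤ Ideal.span {w0} ⊔ k := by
      rw [← Ideal.dvd_iff_le] at h3 ⊢
      have h5 : (Ideal.span {w0} ⊔ k) * J' * P ∣ Ideal.span {a - 1} * P := by
        refine dvd_trans ?_ h3
        rw [mul_assoc, mul_comm J' P, ← hJ', ← hJ]
      have h6 := (mul_dvd_mul_iff_right (show P ≠ 0 from hP0)).mp h5
      exact dvd_trans (dvd_mul_right _ _) h6
    have h5 : a - 1 ∈ Ideal.span {w0} ⊔ k := h4 (Ideal.mem_span_singleton_self _)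
    obtain ⟨x, hx, s, hs, hxs⟩ := Submodule.mem_sup.mp h5
    obtain ⟨r, rfl⟩ := Ideal.mem_span_singleton'.mp hx
    have h6 : 1 + Ideal.Quotient.mk (k) r * Ideal.Quotient.mk (k) w0 =
        Ideal.Quotient.mk (k) a := by
      rw [← map_mul, ← map_one (Ideal.Quotient.mk (k)), ← map_add, Ideal.Quotient.eq]
      have h7 : 1 + r * w0 - a = -s := by linear_combination hxs
      rw [h7]
      exact neg_mem hs
    have hal : a - 1 ∈ l := by
      have h7 : l ⊔ P = ⊤ := top_le_iff.mp (hG.cop ▸ sup_le_sup_left hkP l)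
      have h8 : (1 : 𝓞 K) ∈ l ⊔ P := by rw [h7]; trivial
      obtain ⟨s', hs', p', hp', hsp⟩ := Submodule.mem_sup.mp h8
      have h9 : a - 1 = (a - 1) * s' + (a - 1) * p' := by
        rw [← mul_add, hsp, mul_one]
      rw [h9]
      exact add_mem (Ideal.mul_mem_left _ _ hs') (hfl (ha2 p' hp'))
    refine ⟨Ideal.Quotient.mk (k) r, ?_, ?_⟩
    · rw [h6]
      exact isUnit_of_sup _ _ (hsup a ha1)
    · rw [h6, hη]
      have h7 : E1 χ (v + u * a) = E1 χ a := by
        refine E1_congr hAG χ hft ?_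
        have h8 : v + u * a - a = v * -(a - 1) := by rw [hvu]; ring
        rw [h8]
        exact hv1 _ (neg_mem hal)
      rw [h7, E1_eq χ ha0]
      intro h8
      apply ha3
      unfold Pool.Agent.H51.DW.E0 at h8
      have h9 := ag_conj hAG χ.k (RingOfIntegers.coe_ne_zero_iff.mpr ha0)
      have h10 := ph_conj0 χ.ν (a : K)
      linear_combination (ag χ.k (a : K) * ph χ.ν (a : K)) * h8 -
        (χ.ψ (Ideal.span {a})) * h9 - (ag χ.k (a : K) * (starRingEnd ℂ) (ag χ.k (a : K)) *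
        χ.ψ (Ideal.span {a})) * h10
  · -- the coefficients
    intro M x₀ hM hGn
    obtain ⟨-, hc2, -, hc5, -, -, -, -⟩ := hCG K (l * k) χ M hf hM
    have hc3 := fun (a : 𝓞 K) (ha : a ≠ 0) (x : K) (hx : x ∈ M) =>
      Pool.Agent.H60.GLB.cg_mul_a hAG hID χ hf hM ha hx
    classical
    let c : K → ℂ := fun x => if h : ∃ a : 𝓞 K, x - (a : K) * x₀ ∈ (l : FI K) * M then
      E1 χ (v * h.choose + u) * cg χ M x₀ else 0
    have hGl := gn_mono hGn hfl
    have hG1 := gn_mono hGn hff1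
    have hlM : ((l * k : Ideal (𝓞 K)) : FI K) * M ≤ (l : FI K) * M :=
      mul_le_mul_left ((FractionalIdeal.coeIdeal_le_coeIdeal K).mpr hfl) M
    have h1M : ((l * k : Ideal (𝓞 K)) : FI K) * M ≤ ((k : Ideal (𝓞 K)) : FI K) * M :=
      mul_le_mul_left ((FractionalIdeal.coeIdeal_le_coeIdeal K).mpr hff1) M
    have hc : ∀ (a : 𝓞 K) (x : K), x - (a : K) * x₀ ∈ (l : FI K) * M →
        c x = E1 χ (v * a + u) * cg χ M x₀ := by
      intro a x hx
      have hex : ∃ a : 𝓞 K, x - (a : K) * x₀ ∈ (l : FI K) * M := ⟨a, hx⟩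
      change (if h : ∃ a : 𝓞 K, x - (a : K) * x₀ ∈ (l : FI K) * M then
        E1 χ (v * h.choose + u) * cg χ M x₀ else 0) = _
      rw [dif_pos hex]
      congr 1
      refine E1_congr hAG χ hft ?_
      have h3 : v * hex.choose + u - (v * a + u) = v * (hex.choose - a) := by ring
      rw [h3]
      exact hv1 _ (gn_unique hGl hex.choose_spec hx)
    refine ⟨c, ?_, ?_, ?_⟩
    · intro x _
      change ‖(if h : ∃ a : 𝓞 K, x - (a : K) * x₀ ∈ (l : FI K) * M then
        E1 χ (v * h.choose + u) * cg χ M x₀ else 0)‖ ≤ 1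
      split_ifs with h
      · rw [norm_mul]
        exact mul_le_one₀ (E1_norm_le hAG χ _) (norm_nonneg _) (hc2 x₀ hGn.mem)
      · rw [norm_zero]
        exact zero_le_one
    · intro x hx t ht
      obtain ⟨a, -, ha⟩ := hGn.gen x hx
      have ha' := hlM ha
      rw [hc a x ha', hc a (x + t)]
      have h3 : x + t - (a : K) * x₀ = (x - (a : K) * x₀) + t := by ring
      rw [h3]
      exact ((((l : FI K) * M : FI K)) : Submodule (𝓞 K) K).add_mem ha' ht
    · intro x hx
      obtain ⟨a, ha0, ha⟩ := hGn.gen x hx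
      rw [hc a x (hlM ha), cq_eq (k) η hG1 a x (h1M ha), hη]
      have hax : (a : K) * x₀ ∈ M := by
        have h3 : (a : K) * x₀ = a • x₀ := by rw [Algebra.smul_def]
        rw [h3]
        exact (M : Submodule (𝓞 K) K).smul_mem a hGn.mem
      have h3 : x = (a : K) * x₀ + (x - (a : K) * x₀) := by ring
      have h4 : cg χ M x = cg χ M ((a : K) * x₀) := by
        conv_lhs => rw [h3]
        exact hc5 _ hax _ ha
      rw [h4, hc3 a ha0 x₀ hGn.mem]
      have h5 : (starRingEnd ℂ) (ag χ.k (a : K)) * (starRingEnd ℂ) (ph χ.ν (a : K)) *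
          χ.ψ (Ideal.span {a}) =
          E1 χ a := (E1_eq χ ha0).symm
      have h6 : E1 χ a = E1 χ (v * a + u) * E1 χ (v + u * a) := by
        rw [← E1_mul hAG]
        refine E1_congr hAG χ hft ?_
        have h7 : a - (v * a + u) * (v + u * a) = u * (v * -((a - 1) ^ 2)) := by
          rw [hvu]; ring
        rw [h7]
        exact hu1 _ (Ideal.mul_mem_right _ _ hv)
      rw [h5, h6]
      ring

end Pool.Agent.H27.SX
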